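import Pool.Agent.Helper49.CA.Stm

/-!
# Random features: reductions; bounded error machines need no advice
-/

set_option autoImplicit false

namespace Pool.Agent.Helper48.CA3

open Finset BigOperators Pool.Agent.NPC Pool.Agent.Helper49.CA
open Pool.Agent.H579R2.Spt (BL mem_BL)
open Pool.Agent.Helper6K1.BN (prob InBPP prob_congr prob_mono prob_eq' BL_nonempty)

/-- separation by random features passes to reducible languages -/
theorem t3 : S3 := by
  intro A L hred hA
  obtain ⟨g, hg, hgA⟩ := hred
  obtain ⟨f, ρ, q, w, hf, hw, hsep⟩ := hA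
  have hgp : NPC.Poly g := PIso.poly_iff.2 hg
  obtain ⟨p, hp⟩ := hgp.sz_le
  set R : Polynomial ℕ := p.comp (Polynomial.C 4 * Polynomial.X + 1) with hR
  have hRe : ∀ N, R.eval N = p.eval (4 * N + 1) := fun N => by simp [hR]
  clear_value R
  refine ⟨fun a => f (g a.1, List.replicate (R.eval a.2.1.length) (), a.2.2), ρ.comp R, q.comp R,
    fun N r => w (R.eval N) r, ?_, ?_, ?_⟩
  · have e1 : NPC.Poly (fun a : List Bool × List Unit × List Bool =>
        (g a.1, List.replicate (R.eval a.2.1.length) (), a.2.2)) :=
      NPC.Poly.pair (hgp.comp (NPC.Poly.fst NPC.Poly.id))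
        (NPC.Poly.pair ((UPoly.length (NPC.Poly.fst (NPC.Poly.snd NPC.Poly.id))).eval R)
          (NPC.Poly.snd (NPC.Poly.snd NPC.Poly.id)))
    exact hf.comp e1
  · intro N
    rw [Polynomial.eval_comp, Polynomial.eval_comp]
    exact hw (R.eval N)
  · intro N x hx
    have hlen : (g x).length ≤ R.eval N := by
      have e1 := hp x
      have e2 := length_lt_sz (g x)
      have e3 := sz_listBool_le x
      have e4 : p.eval (sz x) ≤ p.eval (4 * N + 1) := eval_mono p (by omega)
      rw [hRe]
      omega
    have h := hsep (R.eval N) (g x) hlen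
    simp only [Polynomial.eval_comp, List.length_replicate]
    exact ⟨fun hx' => h.1 ((hgA x).1 hx'), fun hx' => h.2 fun h' => hx' ((hgA x).2 h')⟩

/-- Machines with bounded error need no advice. -/
theorem t5 : S5 := by
  classical
  intro L h
  obtain ⟨V0, ρ, hV0, hL⟩ := h
  have hV : NPC.Poly V0 := PIso.poly_iff.2 hV0
  refine ⟨0, fun y => V0 (pairBits (unpair y).1 (unpair (unpair y).2).1), ρ, 2, fun _ _ => [],
    fun _ => 1 / 3, ?_, fun n r => by simp, fun x => ?_⟩
  · refine PIso.poly_iff.1 ?_
    exact hV.comp (Pool.Agent.Helper6K1.BN.poly_pairBits (NPC.Poly.fst poly_unpair)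
      (NPC.Poly.fst (poly_unpair.comp (NPC.Poly.snd poly_unpair))))
  · simp only [unpair_pairBits]
    have h3 := hL x
    constructor
    · intro hx
      have h4 : (2 : ℝ) / 3 ≤ prob (ρ.eval x.length) fun r => V0 (pairBits x r) = [true] :=
        h3.trans (prob_mono fun r _ hr => hr.2 hx)
      have h5 : (((2 : Polynomial ℕ).eval x.length : ℕ) : ℝ) = 2 := by simp
      rw [h5]
      linarith
    · intro hx
      have h4 : (2 : ℝ) / 3 ≤ prob (ρ.eval x.length) fun r => ¬ V0 (pairBits x r) = [true] :=
        h3.trans (prob_mono fun r _ hr hV => hx (hr.1 hV))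
      have h5 : prob (ρ.eval x.length) (fun r => V0 (pairBits x r) = [true]) +
          prob (ρ.eval x.length) (fun r => ¬ V0 (pairBits x r) = [true]) = 1 := by
        rw [prob_eq', prob_eq', ← expect_add_distrib,
          ← expect_const (BL_nonempty (ρ.eval x.length)) (1 : ℝ)]
        refine expect_congr rfl fun r _ => ?_
        rw [expect_const (BL_nonempty _)]
        by_cases hV : V0 (pairBits x r) = [true] <;> simp [hV]
      linarith

end Pool.Agent.Helper48.CA3
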